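import Pool.Agent.J6H9.PL.Stm2

/-!
# PL-TA: homeomorphisms changing one coordinate are limits of piecewise linear ones

(adapted from `typeA_approx` in `CoordRestr/Smooth2.lean`)
-/

set_option autoImplicit false

open Filter Topology
open Pool.Agent.J6H45.CoordRestr

namespace Pool.Agent.J6H68.PL.TA

open Pool.Agent.J6H9.PL

/-- the map `replace` is piecewise linear if `G` is a selection of finitely many affine functions -/
theorem isPL_replace {n : ℕ} {i : Fin n} {σ δ : ℝ} {G : E n → ℝ}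
    (hS : ∃ S : Set ((E n →L[ℝ] ℝ) × ℝ), S.Finite ∧ ∀ x, ∃ T ∈ S, G x = T.1 x + T.2)
    (k : E n → E n) (hk : ∀ x, k x = replace i σ δ G x) : IsPL k := by
  obtain ⟨S, hfin, hS⟩ := hS
  intro p
  refine ⟨(fun T : (E n →L[ℝ] ℝ) × ℝ =>
    ((ContinuousLinearMap.id ℝ (E n) +
      (σ • (T.1 + δ • (EuclideanSpace.proj (𝕜 := ℝ) i : E n →L[ℝ] ℝ)) -
        (EuclideanSpace.proj (𝕜 := ℝ) i : E n →L[ℝ] ℝ)).smulRight (ee i),
      (σ * T.2) • ee i) : (E n →L[ℝ] E n) × E n)) '' S, hfin.image _, ?_⟩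
  refine Filter.Eventually.of_forall fun x => ?_
  obtain ⟨T, hT, hG⟩ := hS x
  refine ⟨_, ⟨T, hT, rfl⟩, ?_⟩
  ext j
  rw [hk]
  by_cases hj : j = i
  · subst hj
    rw [replace_same, hG]
    simp
    ring
  · rw [replace_ne hj]
    simp [hj]

theorem main (h1 : S_Rep) (h2 : S_Mono) : S_TA := by
  intro n h hh
  obtain ⟨i, hi⟩ := hh
  obtain ⟨σ, hσ, hmono⟩ := typeA_mono hi
  rw [approximable_iff_ball]
  intro R hR ε hε
  have hF : Continuous fun x => σ * h x i := by fun_prop
  obtain ⟨G, hG, hGmono, hGS, hGapprox⟩ := h2 n i _ hF (fun x => (hmono x).monotone) R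
    (ε / 4) (by positivity)
  have hδ : 0 < ε / (4 * (R + 1)) := by positivity
  obtain ⟨k, hkx⟩ := h1 n i σ _ hσ hδ G hG hGmono
  refine ⟨k, isPL_replace hGS k hkx, fun x hx => ?_⟩
  have hx' : ‖x‖ ≤ R := by simpa using hx
  have hσσ : σ * σ = 1 := by rcases hσ with h | h <;> rw [h] <;> norm_num
  have hσa : |σ| = 1 := by rcases hσ with h | h <;> rw [h] <;> norm_num
  have e : k x - h x = (k x i - h x i) • ee i := by
    ext j
    by_cases hj : j = i
    · subst hj; simp
    · rw [PiLp.sub_apply, hkx, replace_ne hj, hi _ j hj]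
      simp [hj]
  rw [dist_eq_norm, e, norm_smul, PiLp.norm_single, norm_one, mul_one, Real.norm_eq_abs, hkx,
    replace_same]
  have e2 : σ * (G x + ε / (4 * (R + 1)) * x i) - h x i
      = σ * ((G x - σ * h x i) + ε / (4 * (R + 1)) * x i) := by
    have : σ * (σ * h x i) = h x i := by rw [← mul_assoc, hσσ, one_mul]
    linear_combination this
  rw [e2, abs_mul, hσa, one_mul]
  have h1 : |x i| ≤ R := by
    have := (coord_norm_le x i)
    exact this.trans hx'
  calc |(G x - σ * h x i) + ε / (4 * (R + 1)) * x i|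
      ≤ |G x - σ * h x i| + |ε / (4 * (R + 1)) * x i| := abs_add_le _ _
    _ ≤ ε / 4 + ε / (4 * (R + 1)) * R := by
        rw [abs_mul, abs_of_pos hδ]
        gcongr
        exact hGapprox x hx
    _ ≤ ε / 4 + ε / 4 := by
        gcongr
        rw [div_mul_eq_mul_div, div_le_div_iff₀ (by positivity) (by norm_num)]
        nlinarith
    _ < ε := by linarith

end Pool.Agent.J6H68.PL.TA
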